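import Pool.Agent.Y438.LB.NodeAux
import Pool.Agent.H40.BP.Asm
import Pool.Agent.W571.BQN.DEC
import Pool.Agent.W563.BQN.LIFT
import Pool.Agent.W403.BQN.LIFT0
import Pool.Agent.H40.BP.DOM
import Pool.Agent.H40.BP.LL
import Pool.Agent.H40.BP.E2L
import Pool.Agent.H40.BP.LOCPID
import Pool.Agent.H40.BP.VVL
import Pool.Agent.H40.BP.NISO
import Pool.Agent.H40.BP.NODEF

/-!
# The local ring of `L[X,Y]/(XY - u)` at the origin, `L` regular local of dimension two
(job LB-NODE)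
-/

set_option autoImplicit false

noncomputable section

namespace Pool.Agent.Y438.LB

open Pool.Agent.Y808.LB Pool.Agent.H40.BP Pool.Agent.W394.BQN

theorem nodef : S_NODEF :=
  t_NODEF t_L2 c_BQ2 (t_VVL t_L2 (t_LOCPID c_IND t_E2L) c_IND t_VVK c_VV)
    (Pool.Agent.W571.BQN.t_DEC c_VV (Pool.Agent.W563.BQN.t_LIFT Pool.Agent.W403.BQN.t_LIFT0 c_VV))
    t_NISO

theorem t_NODE : S_NODE := node_aux t_DOM nodef

end Pool.Agent.Y438.LB
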