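import Pool.Agent.Y808.LB.Stm5
import Pool.Agent.H379R3.Reg

/-!
# The local ring of `L[X,Y]/(XY - u)` at the origin, `L` regular local of dimension two: conditional
form (job LB-NODE)
-/

set_option autoImplicit false

open Polynomial IsLocalRing BQ Pool.Agent.H40.BP

noncomputable section

namespace Pool.Agent.Y438.LB

open Pool.Agent.Y808.LB

/-- modulo the variables a polynomial is its constant coefficient -/
theorem sub_const {V : Type} [CommRing V] (π : V) (n : ℕ) (f : MvPolynomial (Fin (n + 1)) V) :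
    Q.pr V π n f - Q.pr V π n (MvPolynomial.C (MvPolynomial.constantCoeff f)) ∈
      Ideal.span (Set.range fun i => Q.pr V π n (MvPolynomial.X i)) := by
  induction f using MvPolynomial.induction_on with
  | C a => simp
  | add f g hf hg =>
    have := Ideal.add_mem _ hf hg
    have e : Q.pr V π n (f + g) -
        Q.pr V π n (MvPolynomial.C (MvPolynomial.constantCoeff (f + g))) =
      (Q.pr V π n f - Q.pr V π n (MvPolynomial.C (MvPolynomial.constantCoeff f))) +
      (Q.pr V π n g - Q.pr V π n (MvPolynomial.C (MvPolynomial.constantCoeff g))) := by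
      simp only [map_add]; ring
    rw [e]
    exact this
  | mul_X f i hf =>
    simp only [map_mul, MvPolynomial.constantCoeff_X, mul_zero, map_zero, sub_zero]
    exact Ideal.mul_mem_left _ _ (Ideal.subset_span ⟨i, rfl⟩)

/-- the first element of a regular system of parameters is prime -/
theorem prime_of_param (L : Type) [CommRing L] [IsRegularLocalRing L] (hd : ringKrullDim L = 2)
    (u t : L) (hm : maximalIdeal L = Ideal.span {u, t}) : IsDomain L ∧ Prime u := by
  have hdom : IsDomain L := Pool.Agent.H379R3.isDomain L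
  have hum : u ∈ maximalIdeal L := by
    rw [hm]
    exact Ideal.subset_span (by simp)
  have hu2 : u ∉ maximalIdeal L ^ 2 := by
    intro hu
    have h1 : maximalIdeal L ≤ Ideal.span {t} := by
      refine Submodule.le_of_le_smul_of_le_jacobson_bot (I := maximalIdeal L)
        (maximalIdeal L).fg_of_isNoetherianRing (IsLocalRing.maximalIdeal_le_jacobson _) ?_
      have h2 : (Ideal.span {u, t} : Ideal L) ≤
          Ideal.span {t} ⊔ maximalIdeal L • maximalIdeal L := by
        refine Ideal.span_le.2 ?_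
        rintro z hz
        rcases hz with rfl | hz
        · refine Ideal.mem_sup_right ?_
          rw [smul_eq_mul, ← pow_two]
          exact hu
        · have hz' : z = t := hz
          rw [hz']
          exact Ideal.mem_sup_left (Ideal.mem_span_singleton_self t)
      calc maximalIdeal L = Ideal.span {u, t} := hm
        _ ≤ _ := h2
    have h3 : maximalIdeal L = Ideal.span {t} := by
      refine le_antisymm h1 ?_
      rw [hm]
      exact Ideal.span_mono (by simp)
    have h4 : (maximalIdeal L).spanFinrank ≤ 1 := by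
      rw [h3]
      have := Submodule.spanFinrank_span_le_ncard_of_finite (R := L) (s := ({t} : Set L))
        (Set.finite_singleton t)
      simpa using this
    have h5 := (isRegularLocalRing_iff L).1 inferInstance
    rw [hd] at h5
    have h6 : (maximalIdeal L).spanFinrank = 2 := by exact_mod_cast h5
    omega
  have hu0 : u ≠ 0 := by
    rintro rfl
    exact hu2 (Ideal.zero_mem _)
  obtain ⟨hreg, -⟩ := Pool.Agent.H379R3.regular_quotient u hum hu2 1 (by rw [hd]; rfl)
  have hdq : IsDomain (L ⧸ Ideal.span {u}) := Pool.Agent.H379R3.isDomain _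
  have hp : (Ideal.span {u} : Ideal L).IsPrime := (Ideal.Quotient.isDomain_iff_prime _).1 hdq
  exact ⟨hdom, (Ideal.span_singleton_prime hu0).1 hp⟩

theorem node_aux (hD : S_DOM) (hN : S_NODEF) : S_NODE := by
  intro L _ _ hdim u t hm B _ _ _ _ x y hx hy hxy
  obtain ⟨hL, hu⟩ := prime_of_param L hdim u t hm
  have hrel : (rel 2 1 u : MvPolynomial (Fin 2) L) = ∏ i, MvPolynomial.X i - MvPolynomial.C u := by
    unfold rel
    rw [map_one, one_mul]
  have hdom : IsDomain (Semi L u 1) := by
    have h1 := (hD L 1 u hu (fun h => hu.not_isUnit (isUnit_of_dvd_one h)) 1).1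
    change IsDomain (QF (rel 2 1 u)) at h1
    rw [hrel] at h1
    exact h1
  have hAF : AF (Semi L u 1) := by
    have h1 := hN L u t hm hu
    rw [hrel] at h1
    exact h1
  have hum : u ∈ maximalIdeal L := by
    rw [hm]
    exact Ideal.subset_span (by simp)
  have htm : t ∈ maximalIdeal L := by
    rw [hm]
    exact Ideal.subset_span (by simp)
  have hρ : ∏ _i : Fin (1 + 1), (0 : ResidueField L) = residue L u := by
    rw [(residue_eq_zero_iff u).2 hum]
    exact Finset.prod_eq_zero (Finset.mem_univ 0) rfl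
  let ρ : Semi L u 1 →+* ResidueField L := Q.lft L u 1 (residue L) (fun _ => 0) hρ
  let xx : Fin (1 + 1) → Semi L u 1 := fun i => Q.pr L u 1 (MvPolynomial.X i)
  let cc : L →+* Semi L u 1 := (Q.pr L u 1).comp MvPolynomial.C
  have ρx : ∀ i, ρ (xx i) = 0 := fun i => Q.lft_X L u 1 _ _ hρ i
  have ρc : ∀ v, ρ (cc v) = residue L v := fun v => Q.lft_C L u 1 _ _ hρ v
  have hxc : ∏ i, xx i = cc u := Q.pr_prod L u 1
  let aa : Fin 3 → Semi L u 1 := ![xx 0, xx 1, cc t]
  let I : Ideal (Semi L u 1) := Ideal.span (Set.range aa)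
  have hxI : ∀ i, xx i ∈ I := by
    intro i
    fin_cases i
    · exact Ideal.subset_span ⟨0, rfl⟩
    · exact Ideal.subset_span ⟨1, rfl⟩
  have htI : cc t ∈ I := Ideal.subset_span ⟨2, rfl⟩
  have hI : ∀ s : Semi L u 1, ∃ v : L, s - cc v ∈ I := by
    intro s
    obtain ⟨f, rfl⟩ : ∃ f, Q.pr L u 1 f = s := Ideal.Quotient.mk_surjective s
    refine ⟨MvPolynomial.constantCoeff f, ?_⟩
    have h1 : Ideal.span (Set.range xx) ≤ I := by
      refine Ideal.span_le.2 ?_
      rintro _ ⟨i, rfl⟩
      exact hxI i
    exact h1 (sub_const u 1 f)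
  let q : Ideal (Semi L u 1) := RingHom.ker ρ
  have hqp : q.IsPrime := RingHom.ker_isPrime ρ
  have hIq : I ≤ q := by
    refine Ideal.span_le.2 ?_
    rintro _ ⟨i, rfl⟩
    fin_cases i
    · exact ρx 0
    · exact ρx 1
    · show ρ (cc t) = 0
      rw [ρc, residue_eq_zero_iff]
      exact htm
  have hqI : q = I := by
    refine le_antisymm (fun s hs => ?_) hIq
    obtain ⟨v, hv⟩ := hI s
    have h1 : ρ (cc v) = 0 := by
      have h2 : ρ (s - cc v) = 0 := hIq hv
      have h3 : ρ s = 0 := hs
      rw [map_sub, h3, zero_sub, neg_eq_zero] at h2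
      exact h2
    rw [ρc, residue_eq_zero_iff, hm, Ideal.mem_span_pair] at h1
    obtain ⟨w1, w2, rfl⟩ := h1
    have h4 : cc (w1 * u + w2 * t) ∈ I := by
      rw [map_add, map_mul, map_mul, ← hxc]
      refine Ideal.add_mem _ (Ideal.mul_mem_left _ _ ?_) (Ideal.mul_mem_left _ _ htI)
      exact Ideal.mem_of_dvd _ (Finset.dvd_prod_of_mem xx (Finset.mem_univ (0 : Fin (1 + 1))))
        (hxI 0)
    have h5 := Ideal.add_mem _ hv h4
    rwa [sub_add_cancel] at h5
  -- elements outside `q`
  have hout : ∀ s : Semi L u 1, s ∉ q → ∀ v : L, s - cc v ∈ I → IsUnit v := by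
    intro s hs v hv
    by_contra hvu
    apply hs
    have h1 : ρ (cc v) = 0 := by
      rw [ρc, residue_eq_zero_iff]
      exact hvu
    have h2 : ρ (s - cc v) = 0 := hIq hv
    rw [map_sub, h1, sub_zero] at h2
    exact h2
  have hprod : ∏ i : Fin (1 + 1), (![x, y] : Fin (1 + 1) → B) i = algebraMap L B u := by
    rw [Fin.prod_univ_two]
    exact hxy
  let φ₀ : Semi L u 1 →+* B := Q.lft L u 1 (algebraMap L B) ![x, y] hprod
  have φx : ∀ i, φ₀ (xx i) = (![x, y] : Fin (1 + 1) → B) i := fun i => Q.lft_X L u 1 _ _ hprod i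
  have φc : ∀ v, φ₀ (cc v) = algebraMap L B v := fun v => Q.lft_C L u 1 _ _ hprod v
  have htB : algebraMap L B t ∈ maximalIdeal B := by
    intro h
    exact htm (isUnit_of_map_unit (algebraMap L B) t h)
  have hφI : ∀ s ∈ I, φ₀ s ∈ maximalIdeal B := by
    have h1 : I ≤ (maximalIdeal B).comap φ₀ := by
      refine Ideal.span_le.2 ?_
      rintro _ ⟨i, rfl⟩
      fin_cases i
      · show φ₀ (xx 0) ∈ maximalIdeal B
        rw [φx]
        exact hx
      · show φ₀ (xx 1) ∈ maximalIdeal B
        rw [φx]
        exact hy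
      · show φ₀ (cc t) ∈ maximalIdeal B
        rw [φc]
        exact htB
    exact fun s hs => h1 hs
  have hφu : ∀ s : q.primeCompl, IsUnit (φ₀ s) := by
    intro s
    obtain ⟨v, hv⟩ := hI s
    have h1 := hout s s.2 v hv
    have h2 := hφI _ hv
    rw [map_sub, φc] at h2
    by_contra hn
    have h3 : φ₀ s ∈ maximalIdeal B := hn
    have h4 := Ideal.sub_mem _ h3 h2
    rw [sub_sub_cancel] at h4
    exact h4 (h1.map (algebraMap L B))
  let R := Localization.AtPrime q
  let al : Semi L u 1 →+* R := algebraMap (Semi L u 1) R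
  let φ : R →+* B := IsLocalization.lift (M := q.primeCompl) hφu
  have hφal : ∀ s, φ (al s) = φ₀ s := fun s => IsLocalization.lift_eq hφu s
  have hmR : maximalIdeal R = Ideal.span (Set.range fun i => al (aa i)) := by
    have h1 : Ideal.map al q = Ideal.map al I := congrArg (Ideal.map al) hqI
    rw [← Localization.AtPrime.map_eq_maximalIdeal (I := q)]
    refine h1.trans ?_
    rw [Ideal.map_span, ← Set.range_comp]
    rfl
  have hR1 : IsDomain R :=
    IsLocalization.isDomain_localization (Ideal.primeCompl_le_nonZeroDivisors q)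
  have hR2 : IsNoetherianRing R := IsLocalization.isNoetherianRing q.primeCompl _ inferInstance
  have hφm : ∀ z ∈ maximalIdeal R, φ z ∈ maximalIdeal B := by
    have h1 : maximalIdeal R ≤ (maximalIdeal B).comap φ := by
      rw [hmR]
      refine Ideal.span_le.2 ?_
      rintro _ ⟨i, rfl⟩
      show φ (al (aa i)) ∈ maximalIdeal B
      rw [hφal]
      exact hφI _ (Ideal.subset_span ⟨i, rfl⟩)
    exact fun z hz => h1 hz
  refine ⟨R, inferInstance, hR1, hR2, inferInstance, al.comp cc, φ, fun i => al (aa i),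
    fun m => roitman q m (hAF m), ⟨fun z hz => ?_⟩, hmR, ?_, ?_, ?_,
    fun v => by rw [RingHom.comp_apply, hφal, φc], fun z => ?_⟩
  · by_contra hn
    exact hφm z hn hz
  · show φ (al (xx 0)) = x
    rw [hφal, φx]
    rfl
  · show φ (al (xx 1)) = y
    rw [hφal, φx]
    rfl
  · show φ (al (cc t)) = algebraMap L B t
    rw [hφal, φc]
  · obtain ⟨f, g, rfl⟩ := IsLocalization.exists_mk'_eq q.primeCompl z
    obtain ⟨v, hv⟩ := hI f
    obtain ⟨u', hu'⟩ := hI g
    obtain ⟨u', rfl⟩ := hout g g.2 u' hu'
    refine ⟨v * ↑u'⁻¹, ?_⟩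
    have h1 : f - g * cc (v * ↑u'⁻¹) ∈ I := by
      have h2 : cc (u' : L) * cc (v * ↑u'⁻¹) = cc v := by
        rw [← map_mul]
        congr 1
        rw [mul_comm, mul_assoc, Units.inv_mul, mul_one]
      have h3 : f - g * cc (v * ↑u'⁻¹) = (f - cc v) - (g - cc (u' : L)) * cc (v * ↑u'⁻¹) := by
        rw [← h2]; ring
      rw [h3]
      exact Ideal.sub_mem _ hv (Ideal.mul_mem_right _ _ hu')
    have h4 : al (f - g * cc (v * ↑u'⁻¹)) ∈ maximalIdeal R := by
      rw [hmR]
      have h5 := Ideal.mem_map_of_mem al h1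
      rw [Ideal.map_span, ← Set.range_comp] at h5
      exact h5
    have h6 : al (f - g * cc (v * ↑u'⁻¹)) =
        al g * (IsLocalization.mk' R f g - (al.comp cc) (v * ↑u'⁻¹)) := by
      have h7 : al g * IsLocalization.mk' R f g = al f := IsLocalization.mk'_spec' R f g
      refine Eq.trans ?_ (mul_sub (al g) (IsLocalization.mk' R f g : R) _).symm
      refine Eq.trans (map_sub al _ _) ?_
      refine congrArg₂ _ h7.symm (map_mul al _ _)
    rw [h6] at h4
    rcases (maximalIdeal.isMaximal R).isPrime.mem_or_mem h4 with h7 | h7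
    · exact absurd (IsLocalization.map_units R g) h7
    · exact h7

end Pool.Agent.Y438.LB
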